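import Pool.Agent.Lib.MP_a8bb0e_al.Tor.D

/-! Genus one for finite extensions of rigid class two groups. -/

open scoped commutatorElement
open Matrix

namespace Pool.Agent.Lib.MP_a8bb0e_al.Tor

open Uni

variable {G H B : Type} [Group G] [Group H] [Group B] {σ I : Type} [Fintype σ] [Fintype I]
  [DecidableEq σ] [DecidableEq I]

/-- all self-equivalences in characteristic zero are dilations -/
def RT (T : σ → σ → I → ℤ) : Prop :=
  ∀ (F : Type) [Field F] [CharZero F] (g g' : Matrix σ σ F) (h h' : Matrix I I F),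
    IsoT T T g g' h h' → ∃ c : F, g = c • 1 ∧ h = c ^ 2 • 1

lemma cast_cast {a : Type} (m : Matrix a a ℤ) {n L : ℕ} (hn : n ∣ L) :
    (m.map (Int.castRingHom _)).map (ZMod.castHom hn (ZMod n)) = m.map (Int.castRingHom _) := by
  ext; simp

lemma sm {a R : Type} [DecidableEq a] [CommRing R] (c : R) (i j : a) :
    (c • (1 : Matrix a a R)) i j = if i = j then c else 0 := by
  rw [Matrix.smul_apply, one_apply, smul_eq_mul, mul_ite, mul_one, mul_zero]

lemma rigid_level {T : σ → σ → I → ℤ} (ht : RT T) (i0 : σ) {D : ℕ} (hD : 0 < D) :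
    ∃ L, 0 < L ∧ ∀ (g0 : Matrix σ σ ℤ) (h0 : Matrix I I ℤ) (g' : Matrix σ σ (ZMod L))
      (h' : Matrix I I (ZMod L)),
      IsoT T T (g0.map (Int.castRingHom _)) g' (h0.map (Int.castRingHom _)) h' →
      (∀ i j, (D : ℤ) ∣ (g0 i0 i0 • 1 - g0) i j) ∧ ∀ i j, (D : ℤ) ∣ (g0 i0 i0 ^ 2 • 1 - h0) i j := by
  let l : (σ × σ) ⊕ (I × I) → Matrix σ σ ℤ → Matrix I I ℤ → ℤ := Sum.elim
    (fun q g _ => (g i0 i0 • 1 - g) q.1 q.2) fun q g h => (g i0 i0 ^ 2 • 1 - h) q.1 q.2
  have : ∀ q, ∃ L : ℕ, ∀ (g0 : Matrix σ σ ℤ) (h0 : Matrix I I ℤ) (g' : Matrix σ σ (ZMod (L + 1)))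
      (h' : Matrix I I (ZMod (L + 1))),
      IsoT T T (g0.map (Int.castRingHom _)) g' (h0.map (Int.castRingHom _)) h' →
        (D : ℤ) ∣ l q g0 h0 := fun q => by
    by_contra hc
    push Not at hc
    choose g h g' h' hI hn using hc
    obtain ⟨F, _, _, φ, hφ⟩ := prime_sep hD _ hn
    have hI' : IsoT T T (R := ∀ L : ℕ, ZMod (L + 1)) (Matrix.of fun i j L => g L i j)
        (Matrix.of fun i j L => g' L i j) (Matrix.of fun i j L => h L i j)
        (Matrix.of fun i j L => h' L i j) := by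
      have := fun L => (isoT_map_iff (T := T) (T' := T) (g := Matrix.of fun i j L => (g L i j : ZMod (L + 1)))
        (g' := Matrix.of fun i j L => g' L i j) (h := Matrix.of fun i j L => (h L i j : ZMod (L + 1)))
        (h' := Matrix.of fun i j L => h' L i j) (Pi.evalRingHom (fun L : ℕ => ZMod (L + 1)) L)).1 (hI L)
      exact ⟨Matrix.ext fun i j => sub_eq_zero.1 (funext fun L => (this L).1 i j),
        Matrix.ext fun i j => sub_eq_zero.1 (funext fun L => (this L).2.1 i j),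
        fun i j a => sub_eq_zero.1 (funext fun L => (this L).2.2 i j a)⟩
    obtain ⟨c, e1, e2⟩ := ht F _ _ _ _ (hI'.map φ)
    have e3 : ∀ i j, φ (fun L => g L i j) = (c • (1 : Matrix σ σ F)) i j :=
      fun i j => congrFun (congrFun e1 i) j
    have e4 : ∀ i j, φ (fun L => h L i j) = (c ^ 2 • (1 : Matrix I I F)) i j :=
      fun i j => congrFun (congrFun e2 i) j
    refine hφ ?_
    rcases q with ⟨i, j⟩ | ⟨i, j⟩
    · have : (fun L => (l (.inl (i, j)) (g L) (h L) : ZMod (L + 1))) =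
          (fun L => (g L i0 i0 : ZMod (L + 1))) * (if i = j then 1 else 0) - fun L => (g L i j : ZMod (L + 1)) := by
        ext L
        simp only [l, Sum.elim_inl, Sum.elim_inr, Matrix.sub_apply, sm]
        by_cases e : i = j <;> simp [e]
      rw [this, map_sub, map_mul, e3, e3]
      by_cases e : i = j <;> simp [e]
    · have : (fun L => (l (.inr (i, j)) (g L) (h L) : ZMod (L + 1))) =
          (fun L => (g L i0 i0 : ZMod (L + 1))) ^ 2 * (if i = j then 1 else 0) - fun L => (h L i j : ZMod (L + 1)) := by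
        ext L
        simp only [l, Sum.elim_inl, Sum.elim_inr, Matrix.sub_apply, sm]
        by_cases e : i = j <;> simp [e]
      rw [this, map_sub, map_mul, map_pow, e3, e4]
      by_cases e : i = j <;> simp [e]
  choose L hL using this
  refine ⟨∏ q, (L q + 1), Finset.prod_pos fun _ _ => Nat.succ_pos _, fun g0 h0 g' h' hI => ?_⟩
  have : ∀ q, (D : ℤ) ∣ l q g0 h0 := fun q => by
    have := hI.map (ZMod.castHom (Finset.dvd_prod_of_mem (fun q => L q + 1) (Finset.mem_univ q))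
      (ZMod (L q + 1)))
    rw [cast_cast, cast_cast] at this
    exact hL q g0 h0 _ _ this
  exact ⟨fun i j => this (.inl (i, j)), fun i j => this (.inr (i, j))⟩

variable (E : Ext B σ I) {π : G →* B} (hπ : Function.Surjective π) [Finite π.ker]

include hπ in
lemma mult [Group.FG G] (ht : RT (ten E)) (i0 : σ) {u : ℕ} (hu : 0 < u) (K : Subgroup G)
    (hK : K.index = u ^ (Fintype.card σ + 2 * Fintype.card I)) (e : K ≃* G) :
    ∃ (φ : G →* G) (φ' : B →* B) (k : ℤ), k.natAbs = u ∧ Function.Injective φ ∧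
      (∀ x, π (φ x) = φ' (π x)) ∧ (∀ x, E.p (φ' x) = (k • 1 : Matrix σ σ ℤ) *ᵥ E.p x) ∧
      ∀ c, φ' (E.i c) = E.i (c ᵥ* (k ^ 2 • 1 : Matrix I I ℤ)) := by
  obtain ⟨φ, φ', p1, p2, p3, rfl⟩ := self_copy E hπ K e
  rw [Subgroup.index_comap_of_surjective _ hπ] at hK
  obtain ⟨g, h, h1, h2⟩ := mats_of_hom E E φ'
  have hg := det_ne E h1 (by rw [hK]; positivity)
  have hh := det_ne' E h2 p3
  obtain ⟨c, e1, e2⟩ := ht ℚ _ _ _ _ (iso_rat E h1 h2 hg hh ℚ)
  obtain rfl : c = g i0 i0 := by simpa using (congrFun (congrFun e1 i0) i0).symm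
  generalize g i0 i0 = k at e1 e2
  obtain rfl : g = k • 1 := Matrix.ext fun i j => Int.cast_injective (α := ℚ) (by
    simpa [-zsmul_eq_mul, one_apply] using congrFun (congrFun e1 i) j)
  obtain rfl : h = k ^ 2 • 1 := Matrix.ext fun i j => Int.cast_injective (α := ℚ) (by
    simpa [-zsmul_eq_mul, one_apply] using congrFun (congrFun e2 i) j)
  rw [index_endo E h1 h2 hg hh, det_smul, det_smul, det_one, det_one, mul_one, mul_one, ← pow_mul,
    Int.natAbs_pow, Int.natAbs_pow, ← pow_add] at hK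
  have : Nonempty σ := ⟨i0⟩
  exact ⟨φ, φ', k, Nat.pow_left_injective (by positivity) hK, p1, p2, h1, h2⟩

include hπ in
lemma app_rigid [Group.FG G] (ht : RT (ten E)) (i0 : σ)
    (crit : ∀ u : ℕ, 0 < u → u.Coprime (Nat.card π.ker) → ∃ K : Subgroup G,
      K.index = u ^ (Fintype.card σ + 2 * Fintype.card I) ∧ Nonempty (K ≃* G)) : App E π := by
  intro D hD d0
  obtain ⟨L, hL, h⟩ := rigid_level ht i0 (D := 2 * D) (by positivity)
  refine ⟨L * (2 * D), by positivity, fun g0 h0 g' h' hI => ?_⟩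
  have hI1 := hI.map (ZMod.castHom (dvd_mul_right L _) (ZMod L))
  have hI2 := hI.map (ZMod.castHom (dvd_mul_left _ L) (ZMod (2 * D)))
  rw [cast_cast, cast_cast] at hI1 hI2
  obtain ⟨a1, a2⟩ := h g0 h0 _ _ hI1
  generalize g0 i0 i0 = u at a1 a2
  have a3 : IsCoprime u (2 * D : ℕ) := by
    have e : (u • 1 : Matrix σ σ ℤ).map (Int.castRingHom (ZMod (2 * D))) = g0.map (Int.castRingHom _) :=
      (map_eq_iff _ _ _).1 fun i j => (ZMod.intCast_zmod_eq_zero_iff_dvd _ _).2 (a1 i j)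
    have := congrFun (congrFun hI2.1 i0) i0
    rw [← e, show (u • 1 : Matrix σ σ ℤ).map (Int.castRingHom (ZMod (2 * D))) = (u : ZMod (2 * D)) • 1 by
      ext i j; simp only [map_apply, sm]; simp, Matrix.smul_mul, Matrix.one_mul, one_apply_eq] at this
    exact ((ZMod.coe_int_isUnit_iff_isCoprime _ _).1 (IsUnit.of_mul_eq_one _ this)).symm
  have a4 : u.natAbs.Coprime (2 * D) := Int.isCoprime_iff_nat_coprime.1 a3
  obtain ⟨K, hK, ⟨e⟩⟩ := crit u.natAbs (Nat.pos_of_ne_zero fun e => by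
    rw [e, Nat.coprime_zero_left] at a4; omega) (a4.coprime_dvd_right (d0.mul_left 2))
  obtain ⟨φ, φ', k, hk, p1, p2, p3, p4⟩ := mult E hπ ht i0 (Nat.pos_of_ne_zero fun e => by
    rw [e, Nat.coprime_zero_left] at a4; omega) K hK e
  obtain ⟨ε, e1, e2⟩ : ∃ ε : ℤ, ε * ε = 1 ∧ k * ε = u := by
    rcases Int.natAbs_eq_natAbs_iff.1 hk with e | e
    exacts [⟨1, rfl, by rw [e, mul_one]⟩, ⟨-1, rfl, by rw [e]; ring⟩]
  have d2 : (D : ℤ) ∣ (2 * D : ℕ) := by exact_mod_cast dvd_mul_left D 2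
  refine ⟨φ, φ', _, ε • 1, ε • 1, _, 1, 1, p1, p2, p3, p4,
    IsoT.of_bil' (by rw [smul_mul_smul_comm, e1, one_smul, Matrix.one_mul]) (Matrix.one_mul _)
      fun x y => ?_, fun i j => ?_, fun i j => ?_⟩
  · rw [vecMul_one, smul_mulVec, smul_mulVec, one_mulVec, one_mulVec]
    funext a
    refine Finset.sum_congr rfl fun i _ => Finset.sum_congr rfl fun j _ => ?_
    simp only [Pi.smul_apply, smul_eq_mul]
    linear_combination (x i * y j * (ten E i j a : ℤ)) * e1
  · rw [smul_mul_smul_comm, e2, Matrix.one_mul]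
    exact d2.trans (a1 i j)
  · rw [Matrix.one_mul, show k ^ 2 = u ^ 2 by rw [← e2]; linear_combination (-k ^ 2) * e1]
    exact d2.trans (a2 i j)

include E in
lemma dilation {u : ℕ} (hu : 0 < u) : ∃ ψ : B →* B, Function.Injective ψ ∧
    ψ.range.index = u ^ (Fintype.card σ + 2 * Fintype.card I) := by
  choose s hs using fun i : σ => E.p_surj (Pi.single i 1)
  obtain ⟨ψ, -, h1, h2⟩ := exists_endo E hs (y := fun i => s i ^ u) (a := (u : ℤ) • 1)
    (b := (u : ℤ) ^ 2 • 1) (fun i => by rw [E.p_pow, hs, smul_mulVec, one_mulVec, natCast_zsmul])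
    fun i j c => by simp [-zsmul_eq_mul, one_apply, sq, mul_comm]
  have hg : ((u : ℤ) • 1 : Matrix σ σ ℤ).det = u ^ Fintype.card σ := by rw [det_smul, det_one, mul_one]
  have hh : ((u : ℤ) ^ 2 • 1 : Matrix I I ℤ).det = u ^ (2 * Fintype.card I) := by
    rw [det_smul, det_one, mul_one, pow_mul]
  have hg' := hg.trans_ne (by positivity)
  have hh' := hh.trans_ne (by positivity)
  exact ⟨ψ, inj_of_det E h1 h2 hg' hh', by
    rw [index_endo E h1 h2 hg' hh', hg, hh, Int.natAbs_pow, Int.natAbs_pow, Int.natAbs_natCast, pow_add]⟩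

include hπ in
theorem genus_iff [Group.IsNilpotent G] [Group.FG G] (ht : RT (ten E)) (i0 : σ)
    (gen : ∀ (B' : Type) [Group B'] [Group.IsNilpotent B'] [Group.FG B'], SameFin B B' →
      Nonempty (B' ≃* B)) :
    (∀ (H : Type) [Group H] [Group.IsNilpotent H] [Group.FG H], SameFin G H → Nonempty (H ≃* G)) ↔
      ∀ u : ℕ, 0 < u → u.Coprime (Nat.card π.ker) → ∃ K : Subgroup G,
        K.index = u ^ (Fintype.card σ + 2 * Fintype.card I) ∧ Nonempty (K ≃* G) := by
  refine ⟨fun h u hu hc => ?_, fun crit H _ _ _ h => back E hπ h gen (app_rigid E hπ ht i0 crit)⟩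
  obtain ⟨ψ, h1, h2⟩ := dilation E hu
  have h3 := (Subgroup.index_comap_of_surjective ψ.range hπ).trans h2
  have : (ψ.range.comap π).FiniteIndex := ⟨by rw [h3]; positivity⟩
  exact ⟨_, h3, h _ (fwd hπ ψ h1 (by rw [h2]; exact hc.pow_left _))⟩

lemma rt_of_rigid {n : ℕ} (E : Ext B (Fin n) I) (ht : Rigid E.t) : RT (ten E) := by
  intro F _ _ g g' h h' hI
  have : Iso E.t E.t g g' h h' := ⟨hI.1, hI.2.1, Matrix.ext fun q a => by
    have h1 := conj_alt g g (fun q => (E.t q a : F)) q.1.1 q.1.2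
    rw [alt_ext (M := Matrix.of fun i j => (ten E i j a : F)) (v := fun q => (E.t q a : F))
      (fun i j => by
        have : ten E j i a = -ten E i j a := congrFun (E.w_swap _ _) a
        simp [this])
      (fun i => by
        have : ten E i i a = 0 := congrFun (E.w_self _) a
        simp [this]) fun _ => rfl] at h1
    refine h1.symm.trans (Eq.trans ?_ (hI.2.2 q.1.1 q.1.2 a))
    simp only [Matrix.mul_apply, transpose_apply, of_apply, Finset.sum_mul]
    rw [Finset.sum_comm]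
    exact Finset.sum_congr rfl fun _ _ => Finset.sum_congr rfl fun _ _ => by ring⟩
  obtain ⟨c, a1, a2, -⟩ := this.unique ht (g2 := 1) (g2' := 1) (h2 := 1) (h2' := 1)
    ⟨Matrix.one_mul _, Matrix.one_mul _, by rw [wedge_one, Matrix.one_mul, Matrix.mul_one]⟩
  exact ⟨c, a1, a2⟩

end Pool.Agent.Lib.MP_a8bb0e_al.Tor
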