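import Mathlib

namespace Pool.Agent.Lib.MP_a8bb0e_al.Tor

/-- every finitely generated nilpotent group with the same finite homomorphic images as `G` is
isomorphic to `G` -/
def GenusOne (G : Type) [Group G] : Prop :=
  ∀ (H : Type) [Group H] [Group.IsNilpotent H] [Group.FG H],
    (∀ (Q : Type) [Group Q] [Finite Q], (∃ f : H →* Q, Function.Surjective f) ↔
      (∃ f : G →* Q, Function.Surjective f)) → Nonempty (H ≃* G)

end Pool.Agent.Lib.MP_a8bb0e_al.Tor
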