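import Pool.Agent.Lib.MP_a8bb0e_al.Nil

/-! Extensions with finite kernel: pullbacks and finite quotients. -/

namespace Pool.Agent.Lib.MP_a8bb0e_al.Tor

variable {G H K B X : Type} [Group G] [Group H] [Group K] [Group B] [Group X]

lemma split (Q : Type) [Group Q] [Finite Q] [Group.IsNilpotent Q] :
    ∃ (ι : Type) (_ : Fintype ι) (p a : ι → ℕ) (R : ι → Type) (_ : ∀ i, Group (R i)),
      Function.Injective p ∧ (∀ i, (p i).Prime) ∧ (∀ i, Nat.card (R i) = p i ^ a i) ∧
        Nonempty ((∀ i, R i) ≃* Q) := by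
  have h : ∀ q : (Nat.card Q).primeFactors, ∃ a, Nat.card (∀ P : Sylow q Q, P) = q.1 ^ a := fun q => by
    have : Fact q.1.Prime := ⟨Nat.prime_of_mem_primeFactors q.2⟩
    refine IsPGroup.iff_card.1 fun x => ⟨(Nat.card Q).factorization q, funext fun P => ?_⟩
    rw [Pi.pow_apply, ← P.card_eq_multiplicity]
    exact pow_card_eq_one'
  choose a ha using h
  exact ⟨(Nat.card Q).primeFactors, inferInstance, Subtype.val, a, fun q => ∀ P : Sylow q Q, P,
    inferInstance, Subtype.val_injective, fun q => Nat.prime_of_mem_primeFactors q.2, ha,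
    ⟨Sylow.directProductOfNormal fun _ => inferInstance⟩⟩

lemma surj_of_p [Group.IsNilpotent G]
    (h : ∀ p a : ℕ, p.Prime → ∀ (R : Type) [Group R], Nat.card R = p ^ a →
      (∃ f : G →* R, Function.Surjective f) → ∃ f : K →* R, Function.Surjective f)
    (Q : Type) [Group Q] [Finite Q] (hf : ∃ f : G →* Q, Function.Surjective f) :
    ∃ f : K →* Q, Function.Surjective f := by
  obtain ⟨f, hf⟩ := hf
  have := Group.nilpotent_of_surjective f hf
  obtain ⟨ι, _, p, a, R, _, h1, h2, h3, ⟨e⟩⟩ := split Q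
  have := Finite.of_equiv Q e.symm.toEquiv
  choose F hF using fun i => h _ _ (h2 i) (R i) (h3 i)
    ⟨(Pi.evalMonoidHom R i).comp (e.symm.toMonoidHom.comp f),
      (Function.surjective_eval i).comp (e.symm.surjective.comp hf)⟩
  refine ⟨e.toMonoidHom.comp (MonoidHom.pi F), e.surjective.comp ?_⟩
  rw [← MonoidHom.range_eq_top]
  refine Subgroup.eq_top_of_le_card _ (Nat.le_of_dvd Nat.card_pos ?_)
  rw [Nat.card_pi]
  refine Finset.prod_dvd_of_isRelPrime (fun i _ j _ hij => ?_) fun i _ => ?_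
  · simp only [Function.onFun, h3]
    exact Nat.coprime_iff_isRelPrime.1 (Nat.Coprime.pow _ _
      ((Nat.coprime_primes (h2 i) (h2 j)).2 (h1.ne hij)))
  · refine Subgroup.card_dvd_of_surjective
      ((Pi.evalMonoidHom R i).comp (MonoidHom.pi F).range.subtype) fun y => ?_
    obtain ⟨k, rfl⟩ := hF i y
    exact ⟨⟨_, k, rfl⟩, rfl⟩

lemma Vm_map (f : G →* H) {m : ℕ} {x : G} (hx : x ∈ Vm G m) : f x ∈ Vm H m :=
  Vm_le (N := (Vm H m).comap f) (fun g => by
    rw [Subgroup.mem_comap, map_pow]; exact pow_mem_Vm _ _) hx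

lemma Vm_lift (f : G →* H) (hf : Function.Surjective f) {m : ℕ} {y : H} (hy : y ∈ Vm H m) :
    ∃ x ∈ Vm G m, f x = y := by
  have := Subgroup.Normal.map (inferInstance : (Vm G m).Normal) f hf
  refine Vm_le (N := (Vm G m).map f) (fun g => ?_) hy
  obtain ⟨g, rfl⟩ := hf g
  exact ⟨_, pow_mem_Vm m g, map_pow _ _ _⟩

lemma Vm_dvd {a b : ℕ} (h : a ∣ b) : Vm G b ≤ Vm G a := by
  obtain ⟨c, rfl⟩ := h
  exact Vm_le fun g => by rw [mul_comm, pow_mul]; exact pow_mem_Vm _ _

lemma exists_pow_sep [Group.IsNilpotent G] [Group.FG G] {e : ℕ} {t : G} (h1 : t ≠ 1)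
    (ht : t ^ e = 1) : ∃ a, t ∉ Vm G (e ^ a) := by
  obtain ⟨m, hm, hm'⟩ : ∃ m, 0 < m ∧ t ∉ Vm G m := by
    by_contra hc
    exact h1 (eq_one_of_Vm fun m hm => by_contra fun h => hc ⟨m, hm, h⟩)
  have := finite_quot G hm
  obtain ⟨ι, _, p, a, R, _, -, h2, h3, ⟨E⟩⟩ := split (G ⧸ Vm G m)
  obtain ⟨i, hi⟩ : ∃ i, E.symm t i ≠ 1 := by
    by_contra hc
    exact hm' ((QuotientGroup.eq_one_iff _).1 (E.symm.map_eq_one_iff.1
      (funext fun i => by_contra fun h => hc ⟨i, h⟩)))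
  let f : G →* R i := (Pi.evalMonoidHom R i).comp (E.symm.toMonoidHom.comp (QuotientGroup.mk' _))
  have h4 : p i ∣ e := by
    by_contra hc
    refine hi (orderOf_eq_one_iff.1 (Nat.eq_one_of_dvd_coprimes
      (((Nat.Prime.coprime_iff_not_dvd (h2 i)).2 hc).pow_left (a i)) ?_ ?_))
    · rw [← h3]; exact orderOf_dvd_natCard _
    · exact orderOf_dvd_of_pow_eq_one (by
        change f t ^ e = 1
        rw [← map_pow, ht, map_one])
  refine ⟨a i, fun h => hi (Vm_le_ker f (fun q => ?_) h)⟩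
  obtain ⟨c, hc⟩ := pow_dvd_pow_of_dvd h4 (a i)
  rw [hc, pow_mul, ← h3, pow_card_eq_one', one_pow]

lemma exists_sep [Group.IsNilpotent G] [Group.FG G] (T : Subgroup G) [Finite T] :
    ∃ a, ∀ t ∈ T, t ∈ Vm G (Nat.card T ^ a) → t = 1 := by
  have : ∀ t : T, ∃ a, t.1 ∈ Vm G (Nat.card T ^ a) → t.1 = 1 := fun t => by
    by_cases h : t.1 = 1
    · exact ⟨0, fun _ => h⟩
    · obtain ⟨a, ha⟩ := exists_pow_sep h (e := Nat.card T)
        (congrArg Subtype.val (pow_card_eq_one' (x := t)))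
      exact ⟨a, fun h => absurd h ha⟩
  choose a ha using this
  obtain ⟨c, hc⟩ := (Set.finite_range a).bddAbove
  exact ⟨c, fun t ht h => ha ⟨t, ht⟩ (Vm_dvd (pow_dvd_pow _ (hc ⟨_, rfl⟩)) h)⟩

/-- the map induced modulo powers -/
def red (π : G →* B) {L M : ℕ} (h : M ∣ L) : G ⧸ Vm G L →* B ⧸ Vm B M :=
  QuotientGroup.map _ _ π fun _ hx => Vm_dvd h (Vm_map π hx)

lemma red_mk (π : G →* B) {L M : ℕ} (h : M ∣ L) (g : G) : red π h g = π g := rfl

lemma red_surj {π : G →* B} (hπ : Function.Surjective π) {L M : ℕ} (h : M ∣ L) :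
    Function.Surjective (red π h) := fun y => by
  obtain ⟨y, rfl⟩ := QuotientGroup.mk_surjective y
  obtain ⟨y, rfl⟩ := hπ y
  exact ⟨y, rfl⟩

lemma pullback {π : G →* B} (hπ : Function.Surjective π) {E : ℕ}
    (hE : ∀ t ∈ π.ker, t ∈ Vm G E → t = 1) (a : X →* B) (b : X →* G ⧸ Vm G E)
    (h : ∀ x, red π dvd_rfl (b x) = a x) :
    ∃ Φ : X →* G, (∀ x, π (Φ x) = a x) ∧ ∀ x, (Φ x : G ⧸ Vm G E) = b x := by
  have : ∀ x, ∃ g : G, π g = a x ∧ (g : G ⧸ Vm G E) = b x := fun x => by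
    obtain ⟨g, hg⟩ := QuotientGroup.mk_surjective (b x)
    have h1 := h x
    rw [← hg, red_mk, QuotientGroup.eq] at h1
    obtain ⟨v, hv, e⟩ := Vm_lift π hπ h1
    exact ⟨g * v, by rw [map_mul, e, mul_inv_cancel_left], by
      rw [← hg, QuotientGroup.mk_mul_of_mem g hv]⟩
  choose Φ h1 h2 using this
  refine ⟨MonoidHom.mk' Φ fun x y => ?_, h1, h2⟩
  refine inv_mul_eq_one.1 (hE _ ?_ (QuotientGroup.eq.1 ?_))
  · simp [MonoidHom.mem_ker, h1]
  · simp [h2]

lemma map_eq_top {Q : Type} [Group Q] (f : K →* Q) (hf : Function.Surjective f) (Y : Subgroup K)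
    (h : Y.index.Coprime (Nat.card Q)) (q : Q) : ∃ y ∈ Y, f y = q := by
  have : Y.map f = ⊤ := Subgroup.index_eq_one.1
    (Nat.eq_one_of_dvd_coprimes h (Y.index_map_dvd hf) (Subgroup.index_dvd_card _))
  exact Subgroup.mem_map.1 (this ▸ Subgroup.mem_top q)

lemma descend {Q : Type} [Group Q] {π : G →* B} (hπ : Function.Surjective π) (f : G →* Q)
    (h : ∀ t ∈ π.ker, f t = 1) : ∃ F : B →* Q, ∀ g, F (π g) = f g :=
  ⟨π.liftOfSurjective hπ ⟨f, h⟩, fun g => π.liftOfRightInverse_comp_apply _ _ _ g⟩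

lemma kill {Q : Type} [Group Q] (T : Subgroup G) (f : G →* Q)
    (h : (Nat.card T).Coprime (Nat.card Q)) {t : G} (ht : t ∈ T) : f t = 1 :=
  orderOf_eq_one_iff.1 (Nat.eq_one_of_dvd_coprimes h
    (orderOf_dvd_of_pow_eq_one (by
      rw [← map_pow, show t ^ Nat.card T = 1 from
        congrArg Subtype.val (pow_card_eq_one' (x := (⟨t, ht⟩ : T))), map_one]))
    (orderOf_dvd_natCard _))

/-- iterates of an endomorphism -/
def it (ψ : B →* B) : ℕ → B →* B
  | 0 => MonoidHom.id B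
  | j + 1 => ψ.comp (it ψ j)

lemma index_iter {ψ : B →* B} (hψ : Function.Injective ψ) (j : ℕ) :
    (it ψ j).range.index = ψ.range.index ^ j := by
  induction j with
  | zero => exact Subgroup.index_eq_one.2 (MonoidHom.range_eq_top.2 Function.surjective_id)
  | succ j ih =>
    rw [pow_succ, ← ih, ← Subgroup.index_map_of_injective _ hψ, MonoidHom.map_range, it]

lemma exists_iter [Group.IsNilpotent B] [Group.FG B] (ψ : B →* B) {E : ℕ} (hE : 0 < E)
    (h : ψ.range.index.Coprime E) : ∃ j, ∀ b, (it ψ (j + 1) b : B ⧸ Vm B E) = b := by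
  have := finite_quot B hE
  have hs : Function.Surjective (red ψ (dvd_refl E)) := fun q => by
    obtain ⟨_, ⟨y, rfl⟩, e⟩ := map_eq_top (QuotientGroup.mk' (Vm B E))
      (QuotientGroup.mk'_surjective _) ψ.range (by
        refine Nat.coprime_of_dvd fun p hp h1 h2 => ?_
        have := Fact.mk hp
        obtain ⟨x, hx⟩ := exists_prime_orderOf_dvd_card' p h2
        exact hp.one_lt.ne' (Nat.eq_one_of_dvd_coprimes h h1
          (hx ▸ orderOf_dvd_of_pow_eq_one (quot_pow E x)))) q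
    exact ⟨y, e⟩
  let e : MulAut (B ⧸ Vm B E) := MulEquiv.ofBijective _ hs.bijective_of_finite
  have h1 : ∀ j b, (it ψ j b : B ⧸ Vm B E) = (e ^ j) b := fun j => by
    induction j with
    | zero => exact fun _ => rfl
    | succ j ih => exact fun b => by rw [pow_succ', MulAut.mul_apply, ← ih]; rfl
  obtain ⟨j, hj⟩ := Nat.exists_eq_succ_of_ne_zero (orderOf_pos e).ne'
  exact ⟨j, fun b => by rw [h1, ← Nat.succ_eq_add_one, ← hj, pow_orderOf_eq_one]; rfl⟩

theorem fwd [Group.IsNilpotent G] [Group.FG G] {π : G →* B} (hπ : Function.Surjective π)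
    [Finite π.ker] (ψ : B →* B) (hψ : Function.Injective ψ)
    (h : ψ.range.index.Coprime (Nat.card π.ker)) : SameFin G (ψ.range.comap π) := by
  have := Group.nilpotent_of_surjective π hπ
  have := Group.fg_of_surjective hπ
  let K := ψ.range.comap π
  have hK : K.index = ψ.range.index := Subgroup.index_comap_of_surjective _ hπ
  let ρ : K →* B := (MonoidHom.ofInjective hψ).symm.toMonoidHom.comp
    ((π.comp K.subtype).codRestrict ψ.range fun x => x.2)
  have hρ : ∀ k, ψ (ρ k) = π k := fun k => MonoidHom.apply_ofInjective_symm hψ _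
  have sρ : Function.Surjective ρ := fun b => by
    obtain ⟨g, hg⟩ := hπ (ψ b)
    exact ⟨⟨g, b, hg.symm⟩, hψ ((hρ _).trans hg)⟩
  have cρ : Nat.card ρ.ker ∣ Nat.card π.ker := Subgroup.card_dvd_of_injective
    ((K.subtype.comp ρ.ker.subtype).codRestrict π.ker fun x => by
      change π x.1 = 1
      rw [← hρ, x.2, map_one]) fun x y e =>
        Subtype.ext (Subtype.ext (congrArg (fun z : π.ker => z.1) e))
  refine fun Q _ _ => ⟨surj_of_p (fun p a hp R _ hR ⟨f, hf⟩ => ?_) Q,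
    surj_of_p (fun p a hp R _ hR ⟨f, hf⟩ => ?_) Q⟩
  · by_cases hd : p ∣ Nat.card π.ker
    · obtain ⟨c, hc⟩ := exists_sep π.ker
      obtain ⟨j, hj⟩ := exists_iter ψ (E := Nat.card π.ker ^ c) (pow_pos Nat.card_pos c)
        (h.pow_right c)
      obtain ⟨Φ, h1, h2⟩ := pullback hπ hc ((it ψ (j + 1)).comp π)
        (QuotientGroup.mk' _) fun x => (hj _).symm
      have h3 : ∀ g, Φ g ∈ K := fun g => ⟨_, (h1 g).symm⟩
      refine ⟨f.comp (Φ.codRestrict K h3), fun q => ?_⟩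
      obtain ⟨y, hy, rfl⟩ := map_eq_top f hf (((it ψ (j + 1)).range.comap π).subgroupOf K) (by
          refine Nat.Coprime.coprime_dvd_left (Subgroup.relIndex_dvd_index_of_le ?_) ?_
          · rintro g ⟨b, hb⟩
            exact ⟨_, hb⟩
          · rw [Subgroup.index_comap_of_surjective _ hπ, index_iter hψ, hR]
            exact ((h.coprime_dvd_right hd).pow_right a).pow_left _) q
      obtain ⟨b, hb⟩ := hy
      obtain ⟨g, rfl⟩ := hπ b
      have h4 : (Φ g)⁻¹ * y ∈ π.ker := by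
        rw [MonoidHom.mem_ker, map_mul, map_inv, h1, inv_mul_eq_one]; exact hb
      have h5 : Φ ((Φ g)⁻¹ * y) = (Φ g)⁻¹ * y := inv_mul_eq_one.1 (hc _ (by
        rw [MonoidHom.mem_ker, map_mul, map_inv, h1, MonoidHom.comp_apply, h4, map_one, inv_one,
          one_mul]) (QuotientGroup.eq.1 (h2 _)))
      exact ⟨g * ((Φ g)⁻¹ * y), congrArg f (Subtype.ext (by
        change Φ _ = _
        rw [map_mul, h5, mul_inv_cancel_left]))⟩
    · obtain ⟨F, hF⟩ := descend sρ f fun t ht => kill _ f (by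
        rw [hR]
        exact (((hp.coprime_iff_not_dvd.2 hd).symm.coprime_dvd_left cρ).pow_right a)) ht
      exact ⟨F.comp π, Function.Surjective.comp (g := F)
        (fun q => (hf q).elim fun k hk => ⟨_, (hF k).trans hk⟩) hπ⟩
  · by_cases hd : p ∣ Nat.card π.ker
    · refine ⟨f.comp K.subtype, fun q => ?_⟩
      obtain ⟨y, hy, rfl⟩ := map_eq_top f hf K (by
        rw [hK, hR]; exact (h.coprime_dvd_right hd).pow_right a) q
      exact ⟨⟨y, hy⟩, rfl⟩
    · obtain ⟨F, hF⟩ := descend hπ f fun t ht => kill _ f (by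
        rw [hR]
        exact ((hp.coprime_iff_not_dvd.2 hd).symm.pow_right a)) ht
      exact ⟨F.comp ρ, Function.Surjective.comp (g := F)
        (fun q => (hf q).elim fun k hk => ⟨_, (hF k).trans hk⟩) sρ⟩

end Pool.Agent.Lib.MP_a8bb0e_al.Tor
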