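import Pool.Agent.Lib.MP_a8bb0e_al.Tor.A
import Pool.Agent.Lib.MP_a8bb0e_al.Uni.Hom

/-! The torsion subgroup of a group with the same finite images. -/

open scoped commutatorElement

namespace Pool.Agent.Lib.MP_a8bb0e_al.Tor

variable {G H B B' σ I : Type} [Group G] [Group H] [Group B] [Group B'] (E : Ext B σ I)
  {π : G →* B} (hπ : Function.Surjective π)

lemma dv (k M : ℕ) : M ∣ 2 * (k * M) := ⟨2 * k, by ring⟩

include E hπ in
lemma near {k M : ℕ} (hk : 0 < k) (hM : 0 < M) (f : H →* G ⧸ Vm G (2 * (k * M))) {a : H}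
    (ha : a ^ k = 1) : ∃ t ∈ π.ker,
      red (MonoidHom.id G) (dv k M) (f a) = (t : G) := by
  obtain ⟨x, hx⟩ := QuotientGroup.mk_surjective (f a)
  obtain ⟨u, d, e⟩ := E.root2 hM hk (g := π x) (by
    rw [← map_pow]
    refine Vm_map π ?_
    rw [← QuotientGroup.eq_one_iff, QuotientGroup.mk_pow, hx, ← map_pow, ha, map_one])
  obtain ⟨v, hv, e'⟩ := Vm_lift π hπ (m := M) (y := π x) (by
    rw [e, pow_mul]; exact mul_mem (pow_mem_Vm _ _) (pow_mem_Vm _ _))
  exact ⟨x * v⁻¹, by rw [MonoidHom.mem_ker, map_mul, map_inv, e', mul_inv_cancel], by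
    rw [← hx, QuotientGroup.mk_mul_of_mem x (inv_mem hv)]; rfl⟩

include E hπ in
lemma down {π' : H →* B'} (hπ' : Function.Surjective π') {k : ℕ} (hk : 0 < k)
    (h1 : ∀ a ∈ π'.ker, a ^ k = 1)
    (hs : ∀ M, 0 < M → ∃ f : H →* G ⧸ Vm G M, Function.Surjective f) {M : ℕ} (hM : 0 < M) :
    ∃ (f : H →* G ⧸ Vm G M) (f' : B' →* B ⧸ Vm B M), Function.Surjective f ∧
      Function.Surjective f' ∧ ∀ a, f' (π' a) = red π dvd_rfl (f a) := by
  obtain ⟨f, hf⟩ := hs (2 * (k * M)) (by positivity)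
  let F := (red (MonoidHom.id G) (dv k M)).comp f
  have hF : Function.Surjective F := (red_surj Function.surjective_id (dv k M)).comp hf
  obtain ⟨f', hf'⟩ := descend hπ' ((red π dvd_rfl).comp F) fun a ha => by
    obtain ⟨t, ht, e⟩ := near E hπ hk hM f (h1 a ha)
    change red π dvd_rfl (red _ (dv k M) (f a)) = 1
    rw [e, red_mk, ht, QuotientGroup.mk_one]
  refine ⟨F, f', hF, fun q => ?_, hf'⟩
  obtain ⟨a, ha⟩ := ((red_surj hπ dvd_rfl).comp hF) q
  exact ⟨_, (hf' a).trans ha⟩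

lemma of_levels (hs : ∀ M, 0 < M → ∃ f : H →* G ⧸ Vm G M, Function.Surjective f) (Q : Type)
    [Group Q] [Finite Q] (h : ∃ f : G →* Q, Function.Surjective f) :
    ∃ f : H →* Q, Function.Surjective f := by
  obtain ⟨g, hg⟩ := h
  obtain ⟨f, hf⟩ := hs (Nat.card Q) Nat.card_pos
  exact ⟨(QuotientGroup.lift _ g (Vm_le_ker g fun _ => pow_card_eq_one')).comp f,
    (lift_surj g hg fun _ => pow_card_eq_one').comp hf⟩

lemma symm (h : SameFin G H) : SameFin H G := fun Q _ _ => (h Q).symm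

lemma ker_pow {t : G} (ht : t ∈ π.ker) : t ^ Nat.card π.ker = 1 :=
  congrArg Subtype.val (pow_card_eq_one' (x := (⟨t, ht⟩ : π.ker)))

variable [Group.IsNilpotent G] [Group.FG G] [Group.IsNilpotent H] [Group.FG H] (h : SameFin G H)

include h in
lemma levels (M : ℕ) (hM : 0 < M) : ∃ f : H →* G ⧸ Vm G M, Function.Surjective f :=
  (h.exists_hom hM).imp fun _ h => h.1

include h in
lemma ker_le {M : ℕ} (hM : 0 < M) (f : H →* G ⧸ Vm G M) (hf : Function.Surjective f) {x : H}
    (hx : f x = 1) : x ∈ Vm H M :=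
  ker_of_card hM f hf (quot_pow M) (h.card hM).symm hx

include E hπ h in
lemma near' {k M : ℕ} (hk : 0 < k) (hM : 0 < M) : ∃ F : H →* G ⧸ Vm G M,
    (∀ x, F x = 1 → x ∈ Vm H M) ∧ ∀ a, a ^ k = 1 → ∃ t ∈ π.ker, F a = (t : G) := by
  obtain ⟨f, hf⟩ := levels h (2 * (k * M)) (by positivity)
  exact ⟨(red (MonoidHom.id G) (dv k M)).comp f,
    fun _ => ker_le h hM _ ((red_surj Function.surjective_id (dv k M)).comp hf),
    fun _ => near E hπ hk hM f⟩

include E hπ h in
lemma pow_e {k : ℕ} (hk : 0 < k) {a b : H} (ha : a ^ k = 1) (hb : b ^ k = 1) :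
    (a * b) ^ Nat.card π.ker = 1 := eq_one_of_Vm fun M hM => by
  obtain ⟨F, h1, h2⟩ := near' E hπ h hk hM
  obtain ⟨t, ht, e⟩ := h2 a ha
  obtain ⟨t', ht', e'⟩ := h2 b hb
  refine h1 _ ?_
  rw [map_pow, map_mul, e, e', ← QuotientGroup.mk_mul, ← QuotientGroup.mk_pow,
    ker_pow (mul_mem ht ht'), QuotientGroup.mk_one]

include E hπ h in
lemma card_le [Finite π.ker] {k : ℕ} (hk : 0 < k) {A : Type} [Finite A] (s : A → H)
    (hs : Function.Injective s) (h1 : ∀ a, s a ^ k = 1) : Nat.card A ≤ Nat.card π.ker := by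
  have := Fintype.ofFinite A
  have : ∀ q : A × A, ∃ m, 0 < m ∧ ((s q.1)⁻¹ * s q.2 ∈ Vm H m → q.1 = q.2) := fun q => by
    by_contra hc
    push Not at hc
    exact (hc 1 one_pos).2 (hs (inv_mul_eq_one.1 (eq_one_of_Vm fun m hm => (hc m hm).1)))
  choose m hm hm' using this
  obtain ⟨F, h2, h3⟩ := near' E hπ h hk (Finset.prod_pos (s := Finset.univ) fun q _ => hm q)
  choose t ht e using fun a => h3 _ (h1 a)
  refine Nat.card_le_card_of_injective (fun a => (⟨t a, ht a⟩ : π.ker)) fun a b hab =>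
    hm' (a, b) (Vm_dvd (Finset.dvd_prod_of_mem m (Finset.mem_univ _)) (h2 _ ?_))
  rw [map_mul, map_inv, e, e, show t a = t b from congrArg Subtype.val hab, inv_mul_cancel]

include E hπ h in
theorem exists_bar [Finite π.ker] : ∃ (B' : Type) (_ : Group B') (π' : H →* B'),
    Function.Surjective π' ∧ Finite π'.ker ∧ Nat.card π.ker ≤ Nat.card π'.ker ∧ SameFin B B' := by
  have he : 0 < Nat.card π.ker := Nat.card_pos
  let S : Subgroup H :=
    { carrier := {a | a ^ Nat.card π.ker = 1}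
      one_mem' := one_pow _
      mul_mem' := pow_e E hπ h he
      inv_mem' := fun {a} ha => by
        change a⁻¹ ^ _ = 1
        rw [inv_pow, ha, inv_one] }
  have : S.Normal := ⟨fun a ha g => by
    change (g * a * g⁻¹) ^ _ = 1
    rw [conj_pow, ha, mul_one, mul_inv_cancel]⟩
  have hS : (QuotientGroup.mk' S).ker = S := QuotientGroup.ker_mk' S
  have fin : Finite S := by
    by_contra hc
    have := not_finite_iff_infinite.1 hc
    have := card_le E hπ h he (A := Fin (Nat.card π.ker + 1))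
      (fun i => (Infinite.natEmbedding S i).1)
      (Subtype.val_injective.comp ((Infinite.natEmbedding S).injective.comp Fin.val_injective))
      fun i => (Infinite.natEmbedding S i).2
    simp at this
  have : Cl2 (H ⧸ S) := ⟨fun a b c => by
    obtain ⟨a, rfl⟩ := QuotientGroup.mk'_surjective S a
    obtain ⟨b, rfl⟩ := QuotientGroup.mk'_surjective S b
    obtain ⟨c, rfl⟩ := QuotientGroup.mk'_surjective S c
    rw [← commutatorElement_eq_one_iff_commute, ← map_commutatorElement, ← map_commutatorElement]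
    refine (QuotientGroup.eq_one_iff _).2 (eq_one_of_Vm fun M hM => ?_)
    obtain ⟨f, -, hf⟩ := h.exists_hom hM
    refine hf _ ?_
    obtain ⟨x, hx⟩ := QuotientGroup.mk'_surjective _ (f a)
    obtain ⟨y, hy⟩ := QuotientGroup.mk'_surjective _ (f b)
    obtain ⟨z, hz⟩ := QuotientGroup.mk'_surjective _ (f c)
    rw [map_pow, map_commutatorElement, map_commutatorElement, ← hx, ← hy, ← hz,
      ← map_commutatorElement, ← map_commutatorElement, ← map_pow, ker_pow (π := π), map_one]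
    rw [MonoidHom.mem_ker, map_commutatorElement, map_commutatorElement]
    exact commutatorElement_eq_one_iff_commute.2 (E.cl2.c _ _ _)⟩
  obtain ⟨n, m, ⟨E'⟩⟩ := exists_ext (H := H ⧸ S) fun x k hk hx => by
    obtain ⟨x, rfl⟩ := QuotientGroup.mk_surjective x
    rw [← QuotientGroup.mk_pow, QuotientGroup.eq_one_iff] at hx
    refine (QuotientGroup.eq_one_iff _).2 ?_
    have := pow_e E hπ h (Nat.mul_pos hk he) (a := x) (b := 1) (by rw [pow_mul]; exact hx) (one_pow _)
    rwa [mul_one] at this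
  have fin' : Finite (QuotientGroup.mk' S).ker := by rwa [hS]
  have s' := QuotientGroup.mk'_surjective S
  refine ⟨H ⧸ S, inferInstance, QuotientGroup.mk' S, s', fin',
    card_le E' s' (symm h) he _ Subtype.val_injective fun a => ker_pow a.2, fun Q _ _ =>
      ⟨of_levels (fun M hM => ?_) Q, of_levels (fun M hM => ?_) Q⟩⟩
  · obtain ⟨-, f, -, hf, -⟩ := down E' s' hπ he (fun _ => ker_pow) (levels (symm h)) hM
    exact ⟨f, hf⟩
  · obtain ⟨-, f, -, hf, -⟩ := down E hπ s' Nat.card_pos (fun _ => ker_pow) (levels h) hM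
    exact ⟨f, hf⟩

end Pool.Agent.Lib.MP_a8bb0e_al.Tor
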