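import Pool.Agent.Lib.MP_a8bb0e_al.Tor.B

/-! From approximation of matrices to an isomorphism of extensions. -/

open scoped commutatorElement
open Matrix

namespace Pool.Agent.Lib.MP_a8bb0e_al.Tor

open Uni

variable {G H B : Type} [Group G] [Group H] [Group B] {σ I : Type} [Fintype σ] [Fintype I]
  [DecidableEq σ] [DecidableEq I]

omit [Fintype σ] [DecidableEq σ] in
lemma lev1 (E : Ext G σ I) (E' : Ext H σ I) : ∃ N, 0 < N ∧ ∀ M (f : H →* G ⧸ Vm G (N * M)),
    ∃ h : Matrix I I ℤ, ∀ c,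
      red (MonoidHom.id G) (dvd_mul_left M N) (f (E'.i c)) = E.i (c ᵥ* h) := by
  choose N hN hN' using fun b : I => E'.tor (.ofAdd (Pi.single b 1))
  have hp : 0 < ∏ b, N b := Finset.prod_pos fun b _ => hN b
  refine ⟨_, hp, fun M f => ?_⟩
  set q := red (MonoidHom.id G) (dvd_mul_left M (∏ b, N b))
  have : ∀ b, ∃ c, q (f (E'.i (Pi.single b 1))) = E.i c := fun b => by
    obtain ⟨k, hk⟩ := QuotientGroup.mk_surjective (f (E'.i (Pi.single b 1)))
    obtain ⟨r, hr⟩ := Finset.dvd_prod_of_mem N (Finset.mem_univ b)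
    have h1 := Abelianization.commutator_subset_ker ((E.pq _).comp f) (pow_mem (hN' b) r)
    rw [← pow_mul, ← hr, MonoidHom.mem_ker, MonoidHom.comp_apply, map_pow] at h1
    change E.pq _ (f (E'.i _) ^ _) = 1 at h1
    rw [← hk, ← QuotientGroup.mk_pow] at h1
    obtain ⟨y, hy⟩ := dvd_of_cast ((E.pq_mk _ _).symm.trans (congrArg Multiplicative.toAdd h1))
    rw [E.p_pow, mul_smul] at hy
    obtain ⟨u, c, rfl⟩ := E.root (smul_right_injective _ hp.ne' hy)
    refine ⟨c, ?_⟩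
    rw [← hk]
    change ((u ^ M * E.i c : G) : G ⧸ Vm G M) = _
    rw [QuotientGroup.mk_mul, QuotientGroup.mk_pow, quot_pow, one_mul]
  choose h hh using this
  let S : AddSubgroup (I → ℤ) :=
    { carrier := {c | q (f (E'.i c)) = E.i (c ᵥ* Matrix.of h)}
      zero_mem' := by simp [Ext.i_zero]
      add_mem' := fun {a b} ha hb => by
        simp only [Set.mem_ofPred_eq] at ha hb ⊢
        rw [Ext.i_add, map_mul, map_mul, ha, hb, add_vecMul, Ext.i_add, QuotientGroup.mk_mul]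
      neg_mem' := fun {a} ha => by
        simp only [Set.mem_ofPred_eq] at ha ⊢
        rw [Ext.i_neg, map_inv, map_inv, ha, neg_vecMul, Ext.i_neg, QuotientGroup.mk_inv] }
  exact ⟨Matrix.of h, pi_ind S fun b => (hh b).trans (by rw [single_one_vecMul]; rfl)⟩

lemma lev2 (E : Ext G σ I) (E' : Ext H σ I) {M : ℕ} (hM : 0 < M) {f : H →* G ⧸ Vm G (2 * M)}
    (hf : Function.Surjective f) {h : Matrix I I ℤ} (hh : ∀ c, f (E'.i c) = E.i (c ᵥ* h)) :
    ∃ (g : Matrix σ σ ℤ) (g' : Matrix σ σ (ZMod M)) (h' : Matrix I I (ZMod M)),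
      IsoT (ten E) (ten E') (g.map (Int.castRingHom _)) g' (h.map (Int.castRingHom _)) h' ∧
      ∀ u (x : G), f u = x → ∃ y, E.p x - g *ᵥ E'.p u = M • y := by
  obtain ⟨s, k, g', h1, h2, h3, h4⟩ := level2 E E' hf hh
  have red : ∀ c d, (E.i c : G ⧸ Vm G (2 * M)) = E.i d → ∀ a, (d a : ZMod M) = c a := fun c d e => by
    rw [QuotientGroup.eq, ← E.i_neg, ← E.i_add, neg_add_eq_sub] at e
    obtain ⟨z, hz⟩ := E.i_Vm hM e
    exact cast_of_dvd hz
  have : ∀ a : I, ∃ d, (E.i (d ᵥ* h) : G ⧸ Vm G (2 * M)) = E.i (Pi.single a 1) := fun a => by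
    obtain ⟨u, hu⟩ := hf (E.i (Pi.single a 1))
    have e := congrArg (g' *ᵥ ·) (h3 u _ hu)
    simp only [mulVec_mulVec, mul_eq_one_comm.1 h4, one_mulVec, E.p_i, Pi.zero_apply, Int.cast_zero,
      ← Pi.zero_def, mulVec_zero] at e
    obtain ⟨y, hy⟩ := dvd_of_cast e.symm
    obtain ⟨v, d, rfl⟩ := E'.root hy
    exact ⟨d, by rw [← hu, map_mul, map_pow, quot_pow, one_mul, hh]⟩
  choose d hd using this
  let φ := ZMod.castHom (Dvd.intro_left 2 rfl) (ZMod M)
  refine ⟨Matrix.of fun i j => E.p (k j) i, g'.map φ, Matrix.of fun a b => d a b, ⟨?_, ?_, fun i j a => ?_⟩,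
    fun u x hx => dvd_of_cast (funext fun v => ?_)⟩
  · rw [← Matrix.map_one φ (map_zero _) (map_one _), ← h4, Matrix.map_mul]
    congr 1
    ext i j
    simp
  · refine mul_eq_one_comm.1 ?_
    ext a b
    have := red _ _ (hd a) b
    simpa [Matrix.mul_apply, vecMul, dotProduct, Pi.single_apply, one_apply, eq_comm] using this
  · have := red (E'.w (Pi.single i 1) (Pi.single j 1) ᵥ* h) (E.w (E.p (k i)) (E.p (k j))) (by
      rw [← hh, ← h1, ← h1, E'.i_w, E.i_w, map_commutatorElement, h2, h2]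
      rfl) a
    rw [w_eq_bil] at this
    simpa [bil, vecMul, dotProduct, ten] using this
  · have := congrArg φ (congrFun (h3 u x hx) v)
    simpa [mulVec, dotProduct, sub_eq_zero] using this

omit [Fintype I] [DecidableEq I] in
lemma exists_hom' (E : Ext G σ I) {s : σ → G} (hs : ∀ i, E.p (s i) = Pi.single i 1) (y : σ → H)
    (j : Multiplicative (I → ℤ) →* H) (cen : ∀ c k, Commute (j c) k)
    (hc : ∀ i k, ⁅y i, y k⁆ = j (.ofAdd (ten E i k))) :
    ∃ F : G →* H, (∀ i, F (s i) = y i) ∧ ∀ c, F (E.i c) = j (.ofAdd c) := by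
  obtain ⟨F, s', h1, h2, h3⟩ := exists_hom E y j cen hc
  choose d hd using fun i => E.of_p_eq ((h1 i).trans (hs i).symm)
  refine ⟨MonoidHom.mk' (fun k => F k * j (.ofAdd (E.p k ᵥ* Matrix.of d))) fun a b => ?_,
    fun i => ?_, fun c => ?_⟩
  · rw [map_mul, E.p_mul, add_vecMul, ofAdd_add, map_mul, mul_assoc, mul_assoc,
      ← mul_assoc (F b), ← (cen _ (F b)).eq, mul_assoc]
  · rw [← h2, hd, map_mul, h3, MonoidHom.mk'_apply, hs, single_one_vecMul]
    rfl
  · rw [MonoidHom.mk'_apply, E.p_i, zero_vecMul, ofAdd_zero, map_one, mul_one, h3]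

omit [Fintype I] [DecidableEq I] in
lemma ext_hom (E : Ext G σ I) {s : σ → G} (hs : ∀ i, E.p (s i) = Pi.single i 1) {F F' : G →* H}
    (h1 : ∀ i, F (s i) = F' (s i)) (h2 : ∀ c, F (E.i c) = F' (E.i c)) (u : G) : F u = F' u := by
  obtain ⟨v, hv, e⟩ := pi_ind ((F.eqLocus F').map E.P).toAddSubgroup'
    (fun i => ⟨s i, h1 i, congrArg Multiplicative.ofAdd (hs i)⟩) (E.p u)
  obtain ⟨c, rfl⟩ := E.of_p_eq (u := u) (v := v) (congrArg Multiplicative.toAdd e).symm
  rw [map_mul, map_mul, h2, show F v = F' v from hv]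

lemma exists_endo (E : Ext G σ I) {s y : σ → G} (hs : ∀ i, E.p (s i) = Pi.single i 1)
    {a : Matrix σ σ ℤ} {b : Matrix I I ℤ} (hy : ∀ i, E.p (y i) = a *ᵥ Pi.single i 1)
    (h : ∀ i j c, ∑ k, ∑ l, a k i * a l j * ten E k l c = ∑ d, ten E i j d * b d c) :
    ∃ F : G →* G, (∀ i, F (s i) = y i) ∧ (∀ u, E.p (F u) = a *ᵥ E.p u) ∧
      ∀ c, F (E.i c) = E.i (c ᵥ* b) := by
  obtain ⟨F, h1, h2⟩ := exists_hom' E hs y (MonoidHom.mk' (fun c => E.i (c.toAdd ᵥ* b))
    fun a b => by rw [toAdd_mul, add_vecMul, E.i_add]) (fun _ _ => E.i_cen _ _) fun i k => by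
      rw [← E.i_w, hy, hy, w_eq_bil, mulVec_single_one, mulVec_single_one]
      exact congrArg E.i (funext fun c => h i k c)
  obtain ⟨g, -, h3, -⟩ := mats_of_hom E E F
  refine ⟨F, h1, fun u => ?_, h2⟩
  rw [h3, show g = a from Matrix.ext_of_mulVec_single fun i => by rw [← hy, ← h1, h3, hs]]

omit [Fintype σ] [Fintype I] [DecidableEq σ] [DecidableEq I] in
lemma i_congr (E : Ext G σ I) {D : ℕ} {c d : I → ℤ} (h : ∀ a, (D : ℤ) ∣ c a - d a) :
    (E.i c : G ⧸ Vm G D) = E.i d := by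
  choose z hz using h
  rw [show c = D • z + d from funext fun a => by simp [← hz], E.i_add, E.i_smul,
    QuotientGroup.mk_mul, QuotientGroup.mk_pow, quot_pow, one_mul]

/-- every self-equivalence modulo a deep level is approximated by an injective endomorphism of `G`
followed by an integral self-equivalence -/
def App (E : Ext B σ I) (π : G →* B) : Prop :=
  ∀ D : ℕ, 0 < D → Nat.card π.ker ∣ D → ∃ L, 0 < L ∧ ∀ (g0 : Matrix σ σ ℤ) (h0 : Matrix I I ℤ)
    (g' : Matrix σ σ (ZMod L)) (h' : Matrix I I (ZMod L)),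
    IsoT (ten E) (ten E) (g0.map (Int.castRingHom _)) g' (h0.map (Int.castRingHom _)) h' →
    ∃ (φ : G →* G) (φ' : B →* B) (g a a' : Matrix σ σ ℤ) (h b b' : Matrix I I ℤ),
      Function.Injective φ ∧ (∀ x, π (φ x) = φ' (π x)) ∧ (∀ u, E.p (φ' u) = g *ᵥ E.p u) ∧
      (∀ c, φ' (E.i c) = E.i (c ᵥ* h)) ∧ IsoT (ten E) (ten E) a a' b b' ∧
      (∀ i j, (D : ℤ) ∣ (g * a - g0) i j) ∧ ∀ i j, (D : ℤ) ∣ (b * h - h0) i j

lemma ker_onto {π : G →* B} [Finite π.ker] {φ : G →* G} (hφ : Function.Injective φ)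
    (h : ∀ t ∈ π.ker, φ t ∈ π.ker) {t : G} (ht : t ∈ π.ker) : ∃ t' ∈ π.ker, φ t' = t := by
  obtain ⟨t', e⟩ := (Finite.injective_iff_surjective (f := fun x : π.ker => (⟨φ x, h _ x.2⟩ : π.ker))).1
    (fun x y e => Subtype.ext (hφ (congrArg (fun z : π.ker => z.1) e))) ⟨t, ht⟩
  exact ⟨t', t'.2, congrArg Subtype.val e⟩

theorem back [Group.IsNilpotent G] [Group.FG G] [Group.IsNilpotent H] [Group.FG H]
    (E : Ext B σ I) {π : G →* B} (hπ : Function.Surjective π) [Finite π.ker] (h : SameFin G H)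
    (gen : ∀ (B' : Type) [Group B'] [Group.IsNilpotent B'] [Group.FG B'], SameFin B B' →
      Nonempty (B' ≃* B)) (app : App E π) : Nonempty (H ≃* G) := by
  have := Group.nilpotent_of_surjective π hπ
  have := Group.fg_of_surjective hπ
  obtain ⟨π', hπ', fin, hc⟩ : ∃ π' : H →* B, Function.Surjective π' ∧ Finite π'.ker ∧
      Nat.card π.ker ≤ Nat.card π'.ker := by
    obtain ⟨B', _, π', hπ', fin, hc, h'⟩ := exists_bar E hπ h
    have := Group.nilpotent_of_surjective π' hπ'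
    have := Group.fg_of_surjective hπ'
    obtain ⟨θ⟩ := gen B' h'
    have e : (θ.toMonoidHom.comp π').ker = π'.ker := by ext; simp
    exact ⟨θ.toMonoidHom.comp π', θ.surjective.comp hπ', by rwa [e], by rwa [e]⟩
  obtain ⟨c1, hc1⟩ := exists_sep π.ker
  obtain ⟨c2, hc2⟩ := exists_sep π'.ker
  obtain ⟨D, hD, d0, d1, d2⟩ : ∃ D, 0 < D ∧ Nat.card π.ker ∣ D ∧
      (∀ t ∈ π.ker, t ∈ Vm G D → t = 1) ∧ ∀ t ∈ π'.ker, t ∈ Vm H D → t = 1 :=
    ⟨Nat.card π.ker * (Nat.card π.ker ^ c1 * Nat.card π'.ker ^ c2),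
      Nat.mul_pos Nat.card_pos (Nat.mul_pos (pow_pos Nat.card_pos _) (pow_pos Nat.card_pos _)),
      dvd_mul_right _ _,
      fun t ht h => hc1 t ht (Vm_dvd ((dvd_mul_right _ _).mul_left _) h),
      fun t ht h => hc2 t ht (Vm_dvd ((dvd_mul_left _ _).mul_left _) h)⟩
  obtain ⟨L, hL, app⟩ := app D hD d0
  obtain ⟨N, hN, l1⟩ := lev1 E E
  obtain ⟨f, f', hf, hf', hff⟩ := down E hπ hπ' Nat.card_pos (fun _ => ker_pow) (levels h)
    (M := N * (2 * (L * D))) (by positivity)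
  obtain ⟨h0, hh⟩ := l1 _ f'
  obtain ⟨g0, g', h', hI, hg⟩ := lev2 E E (Nat.mul_pos hL hD)
    (f := (red (MonoidHom.id B) (dvd_mul_left _ N)).comp f')
    ((red_surj Function.surjective_id (dvd_mul_left _ N)).comp hf') hh
  have mm : ∀ {a : Type} (m : Matrix a a ℤ) {n : ℕ} (hn : n ∣ L * D),
      (m.map (Int.castRingHom _)).map (ZMod.castHom hn (ZMod n)) = m.map (Int.castRingHom _) :=
    fun m n hn => by ext; simp
  have hI1 := hI.map (ZMod.castHom (dvd_mul_right L D) (ZMod L))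
  have hI2 := hI.map (ZMod.castHom (dvd_mul_left D L) (ZMod D))
  rw [mm, mm] at hI1 hI2
  obtain ⟨φ, φ', g, a, a', h1, b, b', p1, p2, p3, p4, p5, p6, p7⟩ := app g0 h0 _ _ hI1
  have dD : D ∣ N * (2 * (L * D)) := ⟨N * 2 * L, by ring⟩
  let α := (red (MonoidHom.id B) dD).comp f'
  choose s hs using fun i : σ => E.p_surj (Pi.single i 1)
  have inv : ∀ c : I → ℤ, ∃ c', ∀ l, (D : ℤ) ∣ c l - (c' ᵥ* h1) l := fun c => by
    obtain ⟨m, hm⟩ : ∃ m : Matrix I I ℤ, m.map (Int.castRingHom (ZMod D)) =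
        h'.map (ZMod.castHom (dvd_mul_left D L) (ZMod D)) :=
      ⟨Matrix.map _ ZMod.cast, Matrix.ext fun i j => ZMod.intCast_zmod_cast _⟩
    refine ⟨c ᵥ* m ᵥ* b, fun l => (ZMod.intCast_zmod_eq_zero_iff_dvd _ _).1 ?_⟩
    have e : (b * h1).map (Int.castRingHom (ZMod D)) = h0.map (Int.castRingHom (ZMod D)) :=
      (map_eq_iff _ _ _).1 fun i j => (ZMod.intCast_zmod_eq_zero_iff_dvd _ _).2 (p7 i j)
    change Int.castRingHom (ZMod D) _ = 0
    rw [map_sub, vecMul_vecMul, vecMul_vecMul, RingHom.map_vecMul, Matrix.map_mul, e, hm,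
      mul_eq_one_comm.1 hI2.2.1, vecMul_one]
    exact sub_self _
  have : ∀ i, ∃ y, E.p y = a *ᵥ Pi.single i 1 ∧ (φ' y : B ⧸ Vm B D) = α (s i) := fun i => by
    obtain ⟨x, hx⟩ := QuotientGroup.mk_surjective (f' (s i))
    obtain ⟨z, hz⟩ := E.p_surj (a *ᵥ Pi.single i 1)
    obtain ⟨y, hy⟩ := hg (s i) x (by rw [MonoidHom.comp_apply, ← hx, red_mk, MonoidHom.id_apply])
    choose w hw using fun l => p6 l i
    obtain ⟨v, c, e⟩ := E.root (k := (φ' z)⁻¹ * x) (M := D) (y := L • y - w) (by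
      rw [E.p_mul, E.p_inv, p3, hz, mulVec_mulVec, eq_add_of_sub_eq hy, hs, mulVec_single_one,
        mulVec_single_one]
      ext l
      have := hw l
      simp only [Matrix.sub_apply] at this
      simp only [Pi.add_apply, Pi.neg_apply, col_apply, Pi.smul_apply, Pi.sub_apply, nsmul_eq_mul,
        Nat.cast_mul, Pi.mul_apply, Pi.natCast_apply]
      linear_combination -this)
    obtain ⟨c', hc'⟩ := inv c
    refine ⟨z * E.i c', by rw [E.p_mul, E.p_i, add_zero, hz], ?_⟩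
    rw [MonoidHom.comp_apply, ← hx, red_mk, MonoidHom.id_apply, eq_mul_of_inv_mul_eq e, map_mul, p4,
      QuotientGroup.mk_mul, QuotientGroup.mk_mul, QuotientGroup.mk_mul, QuotientGroup.mk_pow,
      quot_pow, one_mul, i_congr E hc']
  choose y hy hy' using this
  obtain ⟨γ, q1, q2, q3⟩ := exists_endo E hs hy p5.2.2
  have q4 : ∀ u, (φ' (γ u) : B ⧸ Vm B D) = α u :=
    ext_hom E hs (F := (QuotientGroup.mk' _).comp (φ'.comp γ)) (fun i => by rw [← hy', ← q1]; rfl)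
      fun c => by
        change ((φ' (γ _) : B) : B ⧸ Vm B D) = _
        have e := congrArg (red (MonoidHom.id B) (show D ∣ 2 * (L * D) from ⟨2 * L, by ring⟩)) (hh c)
        obtain ⟨x, hx⟩ := QuotientGroup.mk_surjective (f' (E.i c))
        rw [← hx, red_mk, red_mk, red_mk, MonoidHom.id_apply, MonoidHom.id_apply,
          MonoidHom.id_apply] at e
        rw [q3, p4, MonoidHom.comp_apply, ← hx, red_mk, MonoidHom.id_apply, e]
        refine i_congr E fun l => ?_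
        rw [vecMul_vecMul, ← Pi.sub_apply, ← vecMul_sub]
        exact Finset.dvd_sum fun k _ => (p7 k l).mul_left _
  have sγ : Function.Surjective γ := fun k => by
    obtain ⟨u, hu⟩ := E.p_surj (a' *ᵥ E.p k)
    obtain ⟨c, hc⟩ := E.of_p_eq (u := k) (v := γ u) (by rw [q2, hu, mulVec_mulVec, p5.1, one_mulVec])
    exact ⟨u * E.i (c ᵥ* b'), by
      rw [map_mul, q3, vecMul_vecMul, mul_eq_one_comm.1 p5.2.1, vecMul_one, ← hc]⟩
  have iγ := SameFin.inj (G := B) (H := B) (fun _ _ _ => Iff.rfl) γ sγ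
  have kφ := fun t => ker_onto (π := π) (t := t) p1 fun t ht => by
    rw [MonoidHom.mem_ker, p2, ht, map_one]
  have iφ : Function.Injective φ' := (injective_iff_map_eq_one _).2 fun x hx => by
    obtain ⟨x, rfl⟩ := hπ x
    obtain ⟨t, ht, e⟩ := kφ (φ x) ((p2 x).trans hx)
    rw [← p1 e]; exact ht
  obtain ⟨Φ, r1, r2⟩ := pullback hπ d1 (φ'.comp (γ.comp π'))
    ((red (MonoidHom.id G) dD).comp f) fun x => by
      refine Eq.trans ?_ (q4 _).symm
      obtain ⟨z, hz⟩ := QuotientGroup.mk_surjective (f x)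
      rw [MonoidHom.comp_apply, MonoidHom.comp_apply, hff, ← hz, red_mk, red_mk, red_mk, red_mk,
        MonoidHom.id_apply, MonoidHom.id_apply]
  have iΦ : Function.Injective Φ := (injective_iff_map_eq_one _).2 fun x hx =>
    d2 x (iγ (iφ (by rw [map_one, map_one, ← map_one π, ← hx, r1]; rfl)))
      (ker_le h hD _ ((red_surj Function.surjective_id dD).comp hf) (by rw [← r2, hx]; rfl))
  have kΦ : ∀ t ∈ π.ker, ∃ x, Φ x = t := fun t ht => by
    have mem : ∀ x : π'.ker, Φ x ∈ π.ker := fun x => by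
      rw [MonoidHom.mem_ker, r1, MonoidHom.comp_apply, MonoidHom.comp_apply, x.2, map_one, map_one]
    have inj : Function.Injective fun x : π'.ker => (⟨Φ x, mem x⟩ : π.ker) :=
      fun x y e => Subtype.ext (iΦ (congrArg (fun z : π.ker => z.1) e))
    obtain ⟨x, e⟩ := (inj.bijective_of_nat_card_le hc).2 ⟨t, ht⟩
    exact ⟨x, congrArg Subtype.val e⟩
  have eq : Φ.range = φ.range := by
    ext z
    constructor
    · rintro ⟨x, rfl⟩
      obtain ⟨u, hu⟩ := hπ (γ (π' x))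
      obtain ⟨t, -, e⟩ := kφ ((φ u)⁻¹ * Φ x) (by
        rw [MonoidHom.mem_ker, map_mul, map_inv, p2, hu, r1, inv_mul_eq_one]; rfl)
      exact ⟨u * t, by rw [map_mul, e, mul_inv_cancel_left]⟩
    · rintro ⟨u, rfl⟩
      obtain ⟨x, hx⟩ := (sγ.comp hπ') (π u)
      obtain ⟨t, e⟩ := kΦ ((Φ x)⁻¹ * φ u) (by
        rw [MonoidHom.mem_ker, map_mul, map_inv, p2, ← hx, r1, inv_mul_eq_one]; rfl)
      exact ⟨x * t, by rw [map_mul, e, mul_inv_cancel_left]⟩
  exact ⟨(MonoidHom.ofInjective iΦ).trans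
    ((MulEquiv.subgroupCongr eq).trans (MonoidHom.ofInjective p1).symm)⟩

end Pool.Agent.Lib.MP_a8bb0e_al.Tor
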