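import Pool.Agent.Lib.MP_a8bb0e_al.Tor.C

/-! Indices of endomorphisms and copies of a group inside itself. -/

open scoped commutatorElement
open Matrix

namespace Pool.Agent.Lib.MP_a8bb0e_al.Tor

open Uni

variable {G H B : Type} [Group G] [Group H] [Group B] {σ I : Type} [Fintype σ] [Fintype I]
  [DecidableEq σ] [DecidableEq I]

lemma index_lin (g : Matrix σ σ ℤ) (hg : g.det ≠ 0) :
    g.mulVecLin.toAddMonoidHom.range.index = g.det.natAbs := by
  have := Submodule.natAbs_det_equiv _ (LinearEquiv.ofInjective g.mulVecLin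
    (mulVec_injective_of_det_mem_nonZeroDivisors (mem_nonZeroDivisors_of_ne_zero hg)))
  rw [← LinearMap.det_toLin']
  exact this.symm

variable (E : Ext B σ I) {ψ : B →* B} {g : Matrix σ σ ℤ} {h : Matrix I I ℤ}
  (h1 : ∀ u, E.p (ψ u) = g *ᵥ E.p u) (h2 : ∀ c, ψ (E.i c) = E.i (c ᵥ* h))

omit [Fintype I] [DecidableEq I] [DecidableEq σ] in
include h1 in
lemma map_P : ψ.range.map E.P = g.mulVecLin.toAddMonoidHom.range.toSubgroup := by
  ext x
  constructor
  · rintro ⟨_, ⟨u, rfl⟩, rfl⟩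
    exact ⟨_, (h1 u).symm⟩
  · rintro ⟨y, hy⟩
    obtain ⟨u, rfl⟩ := E.p_surj y
    exact ⟨_, ⟨u, rfl⟩, congrArg Multiplicative.ofAdd ((h1 u).trans hy)⟩

include h1 h2 in
lemma index_cen (hg : g.det ≠ 0) (hh : h.det ≠ 0) : ψ.range.relIndex E.J.range = h.det.natAbs := by
  rw [← Subgroup.index_comap, ← det_transpose, ← index_lin _ (by rwa [det_transpose]),
    ← AddSubgroup.index_toSubgroup]
  congr 1
  ext c
  constructor
  · rintro ⟨u, hu⟩
    obtain ⟨d, rfl⟩ := E.of_p (k := u) (eq_zero_of_mulVec_eq_zero hg (by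
      rw [← h1, hu]; exact E.p_i _))
    exact ⟨d, (mulVec_transpose h d).trans (E.i_inj ((h2 d).symm.trans hu))⟩
  · rintro ⟨d, hd⟩
    exact ⟨E.i d, (h2 d).trans (congrArg E.i ((mulVec_transpose h d).symm.trans hd))⟩

include h1 h2 in
lemma index_endo (hg : g.det ≠ 0) (hh : h.det ≠ 0) :
    ψ.range.index = g.det.natAbs * h.det.natAbs := by
  have e : E.P.ker = E.J.range := Subgroup.ext E.ex
  have a1 := Subgroup.index_map ψ.range E.P
  rw [map_P E h1, AddSubgroup.index_toSubgroup, index_lin g hg, MonoidHom.range_eq_top.2 E.Ps,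
    Subgroup.index_top, mul_one, e, sup_comm] at a1
  have a2 : ψ.range.relIndex E.J.range = ψ.range.relIndex (E.J.range ⊔ ψ.range) := by
    have hle : E.J.range ≤ Subgroup.normalizer ψ.range := by
      rintro _ ⟨c, rfl⟩
      exact Subgroup.center_le_normalizer _ (Subgroup.mem_center_iff.2 fun k => (E.cen c k).symm)
    have := Subgroup.normal_subgroupOf_of_le_normalizer hle
    have := Subgroup.normal_subgroupOf_sup_of_le_normalizer hle
    exact Nat.card_congr (QuotientGroup.quotientInfEquivProdNormalizerQuotient _ _ hle).toEquiv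
  rw [← Subgroup.relIndex_mul_index (le_sup_right : ψ.range ≤ E.J.range ⊔ ψ.range), ← a2, ← a1,
    index_cen E h1 h2 hg hh, mul_comm]

include h1 h2 in
lemma inj_of_det (hg : g.det ≠ 0) (hh : h.det ≠ 0) : Function.Injective ψ :=
  (injective_iff_map_eq_one _).2 fun u hu => by
    obtain ⟨d, rfl⟩ := E.of_p (k := u) (eq_zero_of_mulVec_eq_zero hg (by rw [← h1, hu, E.p_one]))
    rw [eq_zero_of_vecMul_eq_zero hh (E.i_inj ((h2 d).symm.trans (hu.trans E.i_zero.symm))), E.i_zero]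

omit [Fintype σ] [DecidableEq σ] in
include h2 in
lemma det_ne' (hψ : Function.Injective ψ) : h.det ≠ 0 := fun e => by
  obtain ⟨v, hv, e⟩ := exists_vecMul_eq_zero_iff.2 e
  exact hv (E.i_inj (hψ (by rw [h2, e, h2, zero_vecMul])))

omit [Fintype I] [DecidableEq I] in
include h1 in
lemma det_ne (hψ : ψ.range.index ≠ 0) : g.det ≠ 0 := by
  have : ∀ i, ∃ y, g *ᵥ y = ψ.range.index • Pi.single i (1 : ℤ) := fun i => by
    obtain ⟨r, hr⟩ := ψ.range.index_map_dvd E.Ps
    have := pow_mem ((ψ.range.map E.P).pow_index_mem (.ofAdd (Pi.single i 1))) r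
    rwa [← pow_mul, ← hr, map_P E h1] at this
  choose y hy using this
  have e : g * (Matrix.of y)ᵀ = (ψ.range.index : ℤ) • 1 := by
    ext i j
    simpa [Matrix.mul_apply, mulVec, dotProduct, Pi.single_apply, one_apply] using congrFun (hy j) i
  refine left_ne_zero_of_mul (b := (Matrix.of y)ᵀ.det) ?_
  rw [← det_mul, e, det_smul, det_one, mul_one]
  exact pow_ne_zero _ (by exact_mod_cast hψ)

omit [DecidableEq I] in
include h1 h2 in
lemma hom_eq (i j : σ) (c : I) :
    ∑ k, ∑ l, g k i * g l j * ten E k l c = ∑ d, ten E i j d * h d c := by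
  obtain ⟨u, hu⟩ := E.p_surj (Pi.single i 1)
  obtain ⟨v, hv⟩ := E.p_surj (Pi.single j 1)
  have : E.w (g *ᵥ E.p u) (g *ᵥ E.p v) = E.w (E.p u) (E.p v) ᵥ* h :=
    E.i_inj (by rw [← h1, ← h1, ← h2, E.i_w, E.i_w, map_commutatorElement])
  rw [hu, hv, w_eq_bil, mulVec_single_one, mulVec_single_one] at this
  exact congrFun this c

include h1 h2 in
lemma iso_rat (hg : g.det ≠ 0) (hh : h.det ≠ 0) (F : Type) [Field F] [CharZero F] :
    IsoT (ten E) (ten E) (g.map (Int.castRingHom F)) (g.map (Int.castRingHom F))⁻¹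
      (h.map (Int.castRingHom F)) (h.map (Int.castRingHom F))⁻¹ :=
  ⟨mul_nonsing_inv _ (by rw [← RingHom.mapMatrix_apply, ← RingHom.map_det]; simpa using hg),
    mul_nonsing_inv _ (by rw [← RingHom.mapMatrix_apply, ← RingHom.map_det]; simpa using hh),
    fun i j c => by simpa using congrArg (Int.castRingHom F) (hom_eq E h1 h2 i j c)⟩

omit [Fintype σ] [Fintype I] [DecidableEq σ] [DecidableEq I] in
include E in
lemma self_copy [Group.FG G] {π : G →* B} (hπ : Function.Surjective π) [Finite π.ker]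
    (K : Subgroup G) (e : K ≃* G) : ∃ (φ : G →* G) (φ' : B →* B), Function.Injective φ ∧
      (∀ x, π (φ x) = φ' (π x)) ∧ Function.Injective φ' ∧ φ'.range.comap π = K := by
  have := E.cl2
  have := Group.fg_of_surjective hπ
  let φ := K.subtype.comp e.symm.toMonoidHom
  have p1 : Function.Injective φ := Subtype.val_injective.comp e.symm.injective
  have k1 : ∀ t ∈ π.ker, φ t ∈ π.ker := fun t ht =>
    SameFin.tf E (H := B) (fun _ _ _ => Iff.rfl) Nat.card_pos (by
      rw [← map_pow, ← map_pow, ker_pow ht, map_one, map_one])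
  obtain ⟨φ', p2⟩ := descend hπ (π.comp φ) k1
  have k2 := fun t => ker_onto (π := π) (t := t) p1 k1
  refine ⟨φ, φ', p1, fun x => (p2 x).symm, (injective_iff_map_eq_one _).2 fun x hx => ?_, ?_⟩
  · obtain ⟨x, rfl⟩ := hπ x
    obtain ⟨t, ht, e⟩ := k2 (φ x) ((p2 x).symm.trans hx)
    rw [← p1 e]; exact ht
  · ext z
    constructor
    · rintro ⟨x, hx⟩
      obtain ⟨x, rfl⟩ := hπ x
      obtain ⟨t, -, e'⟩ := k2 ((φ x)⁻¹ * z) (by
        rw [MonoidHom.mem_ker, map_mul, map_inv, ← hx, p2, inv_mul_eq_one]; rfl)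
      rw [eq_mul_of_inv_mul_eq e'.symm, ← map_mul]
      exact (e.symm _).2
    · intro hz
      exact ⟨π (e ⟨z, hz⟩), (p2 _).trans (congrArg (fun y : K => π y) (e.symm_apply_apply _))⟩

lemma prime_sep {D : ℕ} (hD : 0 < D) (r : ℕ → ℤ) (hr : ∀ L, ¬ (D : ℤ) ∣ r L) :
    ∃ (F : Type) (_ : Field F) (_ : CharZero F) (φ : (∀ L : ℕ, ZMod (L + 1)) →+* F),
      φ (fun L => r L) ≠ 0 := by
  let S : Submonoid (∀ L : ℕ, ZMod (L + 1)) :=
    { carrier := {x | ∃ k N : ℕ, 0 < k ∧ x = k * (fun L => (r L : ZMod (L + 1))) ^ N}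
      one_mem' := ⟨1, 0, one_pos, by simp⟩
      mul_mem' := by
        rintro _ _ ⟨k, N, hk, rfl⟩ ⟨k', N', hk', rfl⟩
        exact ⟨k * k', N + N', Nat.mul_pos hk hk', by push_cast; ring⟩ }
  obtain ⟨P, hP, -, hd⟩ := Ideal.exists_le_prime_disjoint ⊥ S (Set.disjoint_left.2 (by
    rintro _ h0 ⟨k, N, hk, rfl⟩
    obtain ⟨L, hL⟩ := Nat.exists_eq_succ_of_ne_zero (Nat.mul_pos hk (pow_pos hD (N + 1))).ne'
    have h3 : ((k * r L ^ (N + 1) : ℤ) : ZMod (L + 1)) = 0 := by
      have := congrFun (Ideal.mem_bot.1 h0) L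
      simp only [Pi.mul_apply, Pi.pow_apply, Pi.natCast_apply, Pi.zero_apply] at this
      push_cast
      rw [pow_succ, ← mul_assoc, this, zero_mul]
    rw [ZMod.intCast_zmod_eq_zero_iff_dvd, ← Nat.succ_eq_add_one, ← hL] at h3
    push_cast at h3
    exact hr L ((Int.pow_dvd_pow_iff (Nat.succ_ne_zero N)).1
      ((mul_dvd_mul_iff_left (by exact_mod_cast hk.ne')).1 h3))))
  let φ := (algebraMap _ (FractionRing (_ ⧸ P))).comp (Ideal.Quotient.mk P)
  have hφ : ∀ x ∈ S, φ x ≠ 0 := fun x hx e => Set.disjoint_left.1 hd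
    (Ideal.Quotient.eq_zero_iff_mem.1 ((IsFractionRing.to_map_eq_zero_iff).1 e)) hx
  exact ⟨_, inferInstance, charZero_of_inj_zero fun k hk => by_contra fun h0 =>
    hφ k ⟨k, 0, Nat.pos_of_ne_zero h0, by simp⟩ (by rwa [map_natCast]), φ,
    hφ _ ⟨1, 1, one_pos, by simp⟩⟩

end Pool.Agent.Lib.MP_a8bb0e_al.Tor
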