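import Pool.Agent.Lib.MP_a8bb0e_al.Tor.E
import Pool.Agent.Lib.MP_a8bb0e_al.Tor.Defs

/-! Finite extensions of larger genus. -/

open scoped commutatorElement
open Matrix

namespace Pool.Agent.Lib.MP_a8bb0e_al.Tor

open Uni

variable {B : Type} [Group B]

/-- `B` acting on a cyclic group of order `p ^ 2` through `1 + p * l` -/
@[ext] structure Ex (l : B →* Multiplicative ℤ) (p : ℕ) where
  /-- image in `B` -/
  b : B
  /-- torsion coordinate -/
  t : ZMod (p ^ 2)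

namespace Ex

variable {l : B →* Multiplicative ℤ} {p : ℕ}

instance : Mul (Ex l p) := ⟨fun a c => ⟨a.b * c.b, a.t + (1 + p * ((l a.b).toAdd : ℤ)) * c.t⟩⟩
instance : One (Ex l p) := ⟨⟨1, 0⟩⟩
instance : Inv (Ex l p) := ⟨fun a => ⟨a.b⁻¹, -(1 - p * ((l a.b).toAdd : ℤ)) * a.t⟩⟩

lemma mul_b (a c : Ex l p) : (a * c).b = a.b * c.b := rfl
lemma mul_t (a c : Ex l p) : (a * c).t = a.t + (1 + p * ((l a.b).toAdd : ℤ)) * c.t := rfl
lemma inv_b (a : Ex l p) : a⁻¹.b = a.b⁻¹ := rfl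
lemma inv_t (a : Ex l p) : a⁻¹.t = -(1 - p * ((l a.b).toAdd : ℤ)) * a.t := rfl
lemma one_b : (1 : Ex l p).b = 1 := rfl
lemma one_t : (1 : Ex l p).t = 0 := rfl
lemma sq0 : (p : ZMod (p ^ 2)) ^ 2 = 0 := by exact_mod_cast ZMod.natCast_self (p ^ 2)

instance : Group (Ex l p) := Group.ofLeftAxioms
  (fun a b c => Ex.ext (mul_assoc _ _ _) (by
    simp only [mul_b, mul_t, map_mul, toAdd_mul, Int.cast_add]
    linear_combination (-((l a.b).toAdd : ℤ) * ((l b.b).toAdd : ℤ) * c.t) * sq0 (p := p)))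
  (fun a => Ex.ext (one_mul _) (by simp [mul_t, one_b, one_t]))
  (fun a => Ex.ext (inv_mul_cancel _) (by
    simp only [mul_t, inv_t, inv_b, one_t, map_inv, toAdd_inv, Int.cast_neg]
    ring))

/-- projection -/
def pr (l : B →* Multiplicative ℤ) (p : ℕ) : Ex l p →* B := MonoidHom.mk' Ex.b mul_b

lemma pr_surj : Function.Surjective (pr l p) := fun b => ⟨⟨b, 0⟩, rfl⟩

lemma card_ker : Nat.card (pr l p).ker = p ^ 2 :=
  (Nat.card_congr ⟨fun x => x.1.t, fun t => ⟨⟨1, t⟩, rfl⟩, fun x => Subtype.ext (Ex.ext x.2.symm rfl),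
    fun _ => rfl⟩).trans (Nat.card_zmod _)

lemma comm_t (a c : Ex l p) :
    ⁅a, c⁆.t = p * (((l a.b).toAdd : ℤ) * c.t - ((l c.b).toAdd : ℤ) * a.t) := by
  simp only [commutatorElement_def, mul_t, mul_b, inv_t, inv_b, map_mul, map_inv, toAdd_mul,
    toAdd_inv, Int.cast_add, Int.cast_neg]
  linear_combination ((((l a.b).toAdd : ℤ) + ((l c.b).toAdd : ℤ)) * ((l a.b).toAdd : ℤ) * a.t +
    ((l c.b).toAdd : ℤ) ^ 2 * c.t) * sq0 (p := p)

instance [Cl2 B] : Cl2 (Ex l p) := ⟨fun a c d => by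
  have h : ⁅a, c⁆.b = ⁅a.b, c.b⁆ := map_commutatorElement (pr l p) a c
  refine Ex.ext ?_ ?_
  · rw [mul_b, mul_b, h]; exact Cl2.c _ _ _
  · rw [mul_t, mul_t, h, comm_t, map_commutatorElement,
      commutatorElement_eq_one_iff_commute.2 (Commute.all _ _)]
    simp only [toAdd_one, Int.cast_zero]
    linear_combination (-((l d.b).toAdd : ℤ) *
      (((l a.b).toAdd : ℤ) * c.t - ((l c.b).toAdd : ℤ) * a.t)) * sq0 (p := p)⟩

end Ex

lemma fg_of_ker {G : Type} [Group G] [Group.FG B] {π : G →* B} (hπ : Function.Surjective π)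
    [Finite π.ker] : Group.FG G := by
  obtain ⟨S, hS, fin⟩ := Group.fg_iff.1 (inferInstance : Group.FG B)
  choose s hs using hπ
  refine Group.fg_iff.2 ⟨s '' S ∪ π.ker, eq_top_iff.2 fun g _ => ?_,
    (fin.image s).union (Set.toFinite _)⟩
  have : Subgroup.closure S ≤ (Subgroup.closure (s '' S ∪ π.ker)).map π :=
    (Subgroup.closure_le _).2 fun b hb => ⟨_, Subgroup.subset_closure (Or.inl ⟨b, hb, rfl⟩), hs b⟩
  obtain ⟨x, hx, e⟩ := this (hS ▸ Subgroup.mem_top (π g))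
  rw [← mul_inv_cancel_left x g]
  exact mul_mem hx (Subgroup.subset_closure (Or.inr (by simp [e])))

lemma class_le {G : Type} [Group G] [Cl2 G] : Group.nilpotencyClass G ≤ 2 := by
  refine Subgroup.lowerCentralSeries_eq_bot_iff_nilpotencyClass_le.1 ?_
  rw [Subgroup.lowerCentralSeries_succ, Subgroup.top_lowerCentralSeries_one, eq_bot_iff,
    Subgroup.commutator_le]
  intro a ha b _
  exact Subgroup.mem_bot.2 (commutatorElement_eq_one_iff_commute.2 (comm_central ha b))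

theorem exists_big {σ I : Type} [Fintype σ] [Fintype I] [DecidableEq σ] [DecidableEq I]
    [Group.FG B] (E : Ext B σ I) (ht : RT (ten E)) (i0 : σ) (hc : Group.nilpotencyClass B = 2)
    {p : ℕ} (hp : p.Prime) (h5 : 5 ≤ p) : ∃ (G : Type) (_ : Group G) (π : G →* B),
      Group.FG G ∧ Group.nilpotencyClass G = 2 ∧ Function.Surjective π ∧ Nat.card π.ker = p ^ 2 ∧
      ∀ K : Subgroup G, K.index = 2 ^ (Fintype.card σ + 2 * Fintype.card I) →
        ¬ Nonempty (K ≃* G) := by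
  have := E.cl2
  let l : B →* Multiplicative ℤ := MonoidHom.mk' (fun b => .ofAdd (E.p b i0)) fun a b => by
    rw [E.p_mul]; rfl
  have fin : Finite (Ex.pr l p).ker := Nat.finite_of_card_ne_zero (by
    rw [Ex.card_ker]; exact pow_ne_zero _ hp.ne_zero)
  have := fg_of_ker (Ex.pr_surj (l := l) (p := p))
  refine ⟨Ex l p, inferInstance, Ex.pr l p, this, le_antisymm class_le
    (hc ▸ Group.nilpotencyClass_le_of_surjective _ Ex.pr_surj), Ex.pr_surj, Ex.card_ker,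
    fun K hK ⟨e⟩ => ?_⟩
  obtain ⟨φ, φ', k, hk, p1, p2, p3, -⟩ := mult E Ex.pr_surj ht i0 two_pos K hK e
  obtain ⟨x, hx⟩ := E.p_surj (Pi.single i0 1)
  have l1 : (l x).toAdd = 1 := by
    change E.p x i0 = 1
    rw [hx, Pi.single_eq_same]
  have l2 : (l (φ ⟨x, 0⟩).b).toAdd = k := by
    change E.p (Ex.pr l p (φ _)) i0 = k
    rw [p2, p3, smul_mulVec, one_mulVec]
    change k * E.p x i0 = k
    rw [hx, Pi.single_eq_same, mul_one]
  have b1 : ∀ t, (φ ⟨1, t⟩).b = 1 := fun t => (p2 _).trans (map_one φ')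
  have pw : ∀ (a : Ex l p) (j : ℕ), a.b = 1 → a ^ j = ⟨1, j * a.t⟩ := fun a j ha => by
    induction j with
    | zero => exact Ex.ext rfl (by simp [Ex.one_t])
    | succ j ih =>
      rw [pow_succ, ih]
      exact Ex.ext (by rw [Ex.mul_b, ha, mul_one]) (by simp [Ex.mul_t, add_mul])
  have c1 : ⁅(⟨x, 0⟩ : Ex l p), (⟨1, 1⟩ : Ex l p)⁆ = (⟨1, 1⟩ : Ex l p) ^ p := by
    rw [pw _ _ rfl]
    refine Ex.ext ((map_commutatorElement (Ex.pr l p) _ _).trans (commutatorElement_one_right _)) ?_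
    simp [Ex.comm_t, l1]
  have c2 := congrArg (fun a => (φ a).t) c1
  simp only [map_commutatorElement, map_pow, Ex.comm_t, l2, b1, pw _ _ (b1 1), map_one, toAdd_one,
    Int.cast_zero, zero_mul, sub_zero] at c2
  have u : IsUnit ((k - 1 : ℤ) : ZMod (p ^ 2)) := by
    rw [ZMod.coe_int_isUnit_iff_isCoprime, Int.isCoprime_iff_nat_coprime, Int.natAbs_natCast]
    refine Nat.Coprime.pow_left _ (hp.coprime_iff_not_dvd.2 fun h => ?_)
    have := Nat.le_of_dvd (by omega) h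
    omega
  have c3 : φ ((⟨1, 1⟩ : Ex l p) ^ p) = φ 1 := by
    rw [map_pow, pw _ _ (b1 1), map_one]
    refine Ex.ext rfl (u.mul_right_eq_zero.1 ?_)
    push_cast
    linear_combination c2
  have c4 := congrArg Ex.t (p1 c3)
  rw [pw _ _ rfl, Ex.one_t, mul_one, ZMod.natCast_eq_zero_iff] at c4
  have := Nat.le_of_dvd hp.pos c4
  nlinarith

theorem main {n m : ℕ} {t : Matrix (Pr n) (Fin m) ℤ} (ht : Rigid t) (hn : 0 < n) (hm : 0 < m) :
    (∀ (G : Type) [Group G] [Group.IsNilpotent G] [Group.FG G] (π : G →* GP t),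
      Function.Surjective π → Finite π.ker →
        (GenusOne G ↔ ∀ u : ℕ, 0 < u → u.Coprime (Nat.card π.ker) →
          ∃ K : Subgroup G, K.index = u ^ (n + 2 * m) ∧ Nonempty (K ≃* G))) ∧
    (Group.FG (GP t) ∧ Group.nilpotencyClass (GP t) = 2 ∧ GenusOne (GP t)) ∧
    ∀ p : ℕ, p.Prime → 5 ≤ p → ∃ (G : Type) (_ : Group G) (π : G →* GP t),
      Group.FG G ∧ Group.nilpotencyClass G = 2 ∧ Function.Surjective π ∧ Nat.card π.ker = p ^ 2 ∧
        ¬ GenusOne G := by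
  obtain ⟨E, hE⟩ := exists_ext_GP (ht ℚ).1
  have h1 := rt_of_rigid E (by rwa [hE])
  obtain ⟨h2, h3⟩ := genus_GP ht hn hm
  have key : ∀ (G : Type) [Group G] [Group.IsNilpotent G] [Group.FG G] (π : G →* GP t),
      Function.Surjective π → Finite π.ker →
        (GenusOne G ↔ ∀ u : ℕ, 0 < u → u.Coprime (Nat.card π.ker) →
          ∃ K : Subgroup G, K.index = u ^ (n + 2 * m) ∧ Nonempty (K ≃* G)) := fun G _ _ _ π hπ _ => by
    have := genus_iff E hπ h1 ⟨0, hn⟩ h3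
    rwa [Fintype.card_fin, Fintype.card_fin] at this
  refine ⟨key, ⟨inferInstance, h2, h3⟩, fun p hp h5 => ?_⟩
  obtain ⟨G, _, π, a1, a2, a3, a4, a5⟩ := exists_big E h1 ⟨0, hn⟩ h2 hp h5
  refine ⟨G, _, π, a1, a2, a3, a4, fun h => ?_⟩
  have : Group.IsNilpotent G := by_contra fun h => by
    rw [Group.nilpotencyClass_of_not_nilpotent h] at a2
    omega
  obtain ⟨K, b1, b2⟩ := (key G π a3 (Nat.finite_of_card_ne_zero (by
    rw [a4]; exact pow_ne_zero _ hp.ne_zero))).1 h 2 two_pos (by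
      rw [a4]
      exact Nat.Coprime.pow_right _ ((Nat.coprime_primes Nat.prime_two hp).2 (by omega)))
  exact a5 K (by simpa using b1) b2

end Pool.Agent.Lib.MP_a8bb0e_al.Tor
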